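import Pool.Agent.Helper37.OF.St

/-!
# Project OF (MP_121524_al), module ORD: the order

Owner of the project: helper37.
-/

set_option autoImplicit false

namespace Pool.Agent.Helper74.OF

open Pool.Agent.Helper37.OF Monoid Pool.Agent.Helper4.FS

universe u v w x

theorem hORD (hSTG : StSTG.{w, x}) (hCPT : StCPT.{max x w, x}) : StORD.{w, x} := by
  classical
  intro Q _ _ hlt G _ m S R hS hR hLF g hg
  obtain ⟨E, hE⟩ := hCPT (Fp G (Option Q)) Q (fun q => R q ^ m) _ hg
  have hne : ∀ q : Q, (S.image fun c => c * q).Nonempty := fun q => hS.image _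
  have hlin : StrictMono (E.orderEmbOfFin rfl) := (E.orderEmbOfFin rfl).strictMono
  obtain ⟨M, _, φ, hφ, hinj⟩ := hSTG G Q m E.card (fun j => R (E.orderEmbOfFin rfl j))
    (fun j => (S.image fun c => c * E.orderEmbOfFin rfl j).min' (hne _))
    (fun j => (S.image fun c => c * E.orderEmbOfFin rfl j).max' (hne _))
    (by
      intro i j hij
      obtain ⟨c, hc, hce⟩ := Finset.mem_image.1
        (Finset.min'_mem (S.image fun c => c * E.orderEmbOfFin rfl j) (hne _))
      show (S.image fun c => c * E.orderEmbOfFin rfl i).min' (hne _) <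
        (S.image fun c => c * E.orderEmbOfFin rfl j).min' (hne _)
      rw [← hce]
      exact lt_of_le_of_lt (Finset.min'_le _ _ (Finset.mem_image_of_mem _ hc))
        (hlt c _ _ (hlin hij)))
    (by
      intro i j hij
      obtain ⟨c, hc, hce⟩ := Finset.mem_image.1
        (Finset.max'_mem (S.image fun c => c * E.orderEmbOfFin rfl i) (hne _))
      show (S.image fun c => c * E.orderEmbOfFin rfl i).max' (hne _) <
        (S.image fun c => c * E.orderEmbOfFin rfl j).max' (hne _)
      rw [← hce]
      exact lt_of_lt_of_le (hlt c _ _ (hlin hij))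
        (Finset.le_max' _ _ (Finset.mem_image_of_mem (fun c => c * E.orderEmbOfFin rfl j) hc)))
    (fun j => Finset.min'_le _ _ (Finset.max'_mem _ _))
    (by
      intro j
      refine Sb_mono ?_ (hR (E.orderEmbOfFin rfl j))
      intro i hi y hy
      obtain ⟨c, hc, rfl⟩ := hi y hy
      exact ⟨Finset.min'_le _ _ (Finset.mem_image_of_mem (fun c => c * E.orderEmbOfFin rfl j) hc),
        Finset.le_max' _ _ (Finset.mem_image_of_mem (fun c => c * E.orderEmbOfFin rfl j) hc)⟩)
    (by
      intro j
      constructor
      · obtain ⟨c, hc, hce⟩ := Finset.mem_image.1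
          (Finset.min'_mem (S.image fun c => c * E.orderEmbOfFin rfl j) (hne _))
        show LF _ m (some ((S.image fun c => c * E.orderEmbOfFin rfl j).min' (hne _)))
        rw [← hce]
        exact hLF _ c hc
      · obtain ⟨c, hc, hce⟩ := Finset.mem_image.1
          (Finset.max'_mem (S.image fun c => c * E.orderEmbOfFin rfl j) (hne _))
        show LF _ m (some ((S.image fun c => c * E.orderEmbOfFin rfl j).max' (hne _)))
        rw [← hce]
        exact hLF _ c hc)
  have hker : Subgroup.normalClosure ((fun q => R q ^ m) '' (E : Set Q)) ≤ φ.ker := by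
    refine Subgroup.normalClosure_le_normal ?_
    rintro y ⟨q, hq, rfl⟩
    have hq' : q ∈ Set.range (E.orderEmbOfFin rfl) := by
      rw [Finset.range_orderEmbOfFin]; exact hq
    obtain ⟨j, rfl⟩ := hq'
    show φ (R (E.orderEmbOfFin rfl j) ^ m) = 1
    rw [map_pow]
    exact hφ j
  have h1 : (ofi none g : Fp G (Option Q)) = 1 := by
    refine hinj _ (ofi_mem ?_ g) (hker hE)
    intro y hy
    exact absurd hy (by simp)
  rw [← ofi_one none] at h1
  exact ofi_inj none h1

end Pool.Agent.Helper74.OF
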