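import Pool.Agent.Helper64.OF.St

/-!
# Project OF, module COMB: the independent set and the forest
-/

set_option autoImplicit false

namespace Pool.Agent.Helper74.OF

open Pool.Agent.Helper64.OF Pool.Agent.Helper35.PM

theorem z01 (x : ZMod 2) : x = 0 ∨ x = 1 := by
  revert x
  decide

section

variable {V T : Type} (G : SimpleGraph V) (L : T → ℕ) (p : T → ℕ → V) (c : V → ZMod 2)

/-- a disc is needed at `t, i` -/
def A (t : T) (i : ℕ) : Prop :=
  i + 2 ≤ L t ∧ ∃ v, v ∉ PV L p ∧ c v = 1 ∧ G.Adj (p t i) v ∧ G.Adj (p t (i + 2)) v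

/-- a disc is used at `t, i` -/
def A' (t : T) (i : ℕ) : Prop :=
  A G L p c t i ∧ (Odd i → ¬ A G L p c t (i - 1) ∧ ¬ A G L p c t (i + 1))

/-- union of the discs used -/
def Om (Ω : T → ℕ → Set V) : Set V := {v | ∃ t i, A' G L p c t i ∧ v ∈ Ω t i}

/-- the independent set -/
def II (Ω : T → ℕ → Set V) : Set V :=
  {v | (v ∉ PV L p ∧ v ∈ Om G L p c Ω ∧ c v = 1) ∨ (v ∉ PV L p ∧ v ∉ Om G L p c Ω ∧ c v = 0) ∨
    ∃ t i, A' G L p c t i ∧ v = p t (i + 1)}

open Classical in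
/-- the spine -/
noncomputable def sg (w : T → ℕ → V) (t : T) (j : ℕ) : V :=
  if 1 ≤ j ∧ A' G L p c t (j - 1) then w t (j - 1) else p t j

/-- pendant vertices -/
def Pd (w : T → ℕ → V) (Ω : T → ℕ → Set V) (v : V) : Prop :=
  v ∉ PV L p ∧ (∀ t i, A' G L p c t i → v ≠ w t i) ∧
    ((v ∈ Om G L p c Ω ∧ c v = 0) ∨ (v ∉ Om G L p c Ω ∧ c v = 1))

variable {G L p c}

theorem A'_not_succ {t : T} {i : ℕ} (h : A' G L p c t i) : ¬ A' G L p c t (i + 1) := by
  intro h'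
  rcases Nat.even_or_odd i with he | ho
  · exact (h'.2 he.add_one).1 (by simpa using h.1)
  · exact (h.2 ho).2 h'.1

theorem A_not_A' {t : T} {i : ℕ} (h : A G L p c t i) (h' : ¬ A' G L p c t i) :
    1 ≤ i ∧ (A' G L p c t (i - 1) ∨ A' G L p c t (i + 1)) := by
  have ho : Odd i := by
    by_contra hne
    exact h' ⟨h, fun ho => absurd ho hne⟩
  have h1 : 1 ≤ i := ho.pos
  refine ⟨h1, ?_⟩
  by_contra hcon
  rw [not_or] at hcon
  apply h'
  refine ⟨h, fun _ => ⟨fun hA => hcon.1 ⟨hA, fun hodd => ?_⟩, fun hA => hcon.2 ⟨hA, fun hodd => ?_⟩⟩⟩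
  · exfalso
    rcases ho with ⟨a, ha⟩
    rcases hodd with ⟨b, hb⟩
    omega
  · exfalso
    rcases ho with ⟨a, ha⟩
    rcases hodd with ⟨b, hb⟩
    omega

theorem A'_le {t : T} {i : ℕ} (h : A' G L p c t i) : i + 2 ≤ L t := h.1.1

theorem mem_PV {t : T} {i : ℕ} (h : i ≤ L t) : p t i ∈ PV L p := ⟨t, i, h, rfl⟩

variable {w : T → ℕ → V} {Ω : T → ℕ → Set V}

/-- neighbours on the paths of a vertex in a disc -/
theorem nbP (hP : Paths G L p)
    (hW : ∀ t i, A G L p c t i →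
      Disc G (PV L p) c (p t i) (p t (i + 1)) (p t (i + 2)) (w t i) (Ω t i))
    {s : T} {j : ℕ} (hs : A' G L p c s j) {u : V} (hu : u ∈ Ω s j) {t : T} {i : ℕ}
    (hi : i ≤ L t) (ha : G.Adj u (p t i)) : s = t ∧ (i = j ∨ i = j + 1 ∨ i = j + 2) := by
  have D := hW s j hs.1
  have hL := A'_le hs
  rcases D.nb u (p t i) hu ha with h | h | h | h | h
  · exact absurd (mem_PV hi) (D.disj _ h)
  · obtain ⟨e, e'⟩ := hP.inj t s i j hi (by omega) h
    exact ⟨e.symm, Or.inl e'⟩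
  · obtain ⟨e, e'⟩ := hP.inj t s i (j + 1) hi (by omega) h
    exact ⟨e.symm, Or.inr (Or.inl e')⟩
  · obtain ⟨e, e'⟩ := hP.inj t s i (j + 2) hi (by omega) h
    exact ⟨e.symm, Or.inr (Or.inr e')⟩
  · exact absurd (h ▸ mem_PV hi) D.wP

theorem w_notin (hP : Paths G L p)
    (hW : ∀ t i, A G L p c t i →
      Disc G (PV L p) c (p t i) (p t (i + 1)) (p t (i + 2)) (w t i) (Ω t i))
    {t s : T} {i j : ℕ} (ht : A' G L p c t i) (hs : A' G L p c s j) : w t i ∉ Ω s j := by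
  intro hw
  have D := hW t i ht.1
  have hL := A'_le ht
  obtain ⟨e, h1⟩ := nbP hP hW hs hw (t := t) (i := i) (by omega) D.adj0.symm
  obtain ⟨_, h2⟩ := nbP hP hW hs hw (t := t) (i := i + 2) (by omega) D.adj2.symm
  subst e
  have : i = j := by omega
  subst this
  exact D.wΩ hw

theorem w_notin_Om (hP : Paths G L p)
    (hW : ∀ t i, A G L p c t i →
      Disc G (PV L p) c (p t i) (p t (i + 1)) (p t (i + 2)) (w t i) (Ω t i))
    {t : T} {i : ℕ} (ht : A' G L p c t i) : w t i ∉ Om G L p c Ω := by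
  rintro ⟨s, j, hs, h⟩
  exact w_notin hP hW ht hs h

/-- leaving the discs -/
theorem leave
    (hW : ∀ t i, A G L p c t i →
      Disc G (PV L p) c (p t i) (p t (i + 1)) (p t (i + 2)) (w t i) (Ω t i))
    {u v : V} (hu : u ∈ Om G L p c Ω) (ha : G.Adj u v) (hv : v ∉ Om G L p c Ω)
    (hvP : v ∉ PV L p) : ∃ t i, A' G L p c t i ∧ v = w t i := by
  obtain ⟨t, i, ht, h⟩ := hu
  have D := hW t i ht.1
  have hL := A'_le ht
  rcases D.nb u v h ha with h | h | h | h | h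
  · exact absurd ⟨t, i, ht, h⟩ hv
  · exact absurd (h ▸ mem_PV (by omega)) hvP
  · exact absurd (h ▸ mem_PV (by omega)) hvP
  · exact absurd (h ▸ mem_PV (by omega)) hvP
  · exact ⟨t, i, ht, h⟩

theorem Om_notP
    (hW : ∀ t i, A G L p c t i →
      Disc G (PV L p) c (p t i) (p t (i + 1)) (p t (i + 2)) (w t i) (Ω t i))
    {u : V} (hu : u ∈ Om G L p c Ω) : u ∉ PV L p := by
  obtain ⟨t, i, ht, h⟩ := hu
  exact (hW t i ht.1).disj u h

/-- independence, one vertex outside of the paths and one on a path -/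
theorem ind_aux (hP : Paths G L p)
    (hW : ∀ t i, A G L p c t i →
      Disc G (PV L p) c (p t i) (p t (i + 1)) (p t (i + 2)) (w t i) (Ω t i))
    {u : V} {t : T} {i : ℕ} (ht : A' G L p c t i) (hu : u ∉ PV L p)
    (hI : (u ∈ Om G L p c Ω ∧ c u = 1) ∨ (u ∉ Om G L p c Ω ∧ c u = 0)) :
    ¬ G.Adj u (p t (i + 1)) := by
  intro ha
  have D := hW t i ht.1
  have hL := A'_le ht
  rcases hI with ⟨hO, hc⟩ | ⟨hO, hc⟩
  · obtain ⟨s, j, hs, hm⟩ := hO
    obtain ⟨e, h⟩ := nbP hP hW hs hm (t := t) (i := i + 1) (by omega) ha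
    subst e
    rcases h with h | h | h
    · subst h
      exact A'_not_succ ht hs
    · have e2 : i = j := by omega
      subst e2
      have := (D.mid u hu ha.symm).1 hm
      rw [this] at hc
      exact absurd hc (by decide)
    · have e2 : i = j + 1 := by omega
      subst e2
      exact A'_not_succ hs ht
  · exact hO ⟨t, i, ht, (D.mid u hu ha.symm).2 hc⟩

theorem indep (hP : Paths G L p)
    (hc : ∀ u v, u ∉ PV L p → v ∉ PV L p → G.Adj u v → c u ≠ c v)
    (hW : ∀ t i, A G L p c t i →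
      Disc G (PV L p) c (p t i) (p t (i + 1)) (p t (i + 2)) (w t i) (Ω t i)) :
    ∀ a ∈ II G L p c Ω, ∀ b ∈ II G L p c Ω, ¬ G.Adj a b := by
  have key : ∀ a b, a ∉ PV L p → b ∉ PV L p → a ∈ Om G L p c Ω → c a = 1 →
      b ∉ Om G L p c Ω → c b = 0 → ¬ G.Adj a b := by
    intro a b _ hb haO _ hbO hcb hab
    obtain ⟨t, i, ht, e⟩ := leave hW haO hab hbO hb
    rw [e, (hW t i ht.1).cw] at hcb
    exact absurd hcb (by decide)
  intro a ha b hb hab
  rcases ha with ⟨ha, haO, hca⟩ | ⟨ha, haO, hca⟩ | ⟨t, i, ht, ea⟩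
  · rcases hb with ⟨hb, hbO, hcb⟩ | ⟨hb, hbO, hcb⟩ | ⟨s, j, hs, eb⟩
    · exact hc a b ha hb hab (hca.trans hcb.symm)
    · exact key a b ha hb haO hca hbO hcb hab
    · exact ind_aux hP hW hs ha (Or.inl ⟨haO, hca⟩) (eb ▸ hab)
  · rcases hb with ⟨hb, hbO, hcb⟩ | ⟨hb, hbO, hcb⟩ | ⟨s, j, hs, eb⟩
    · exact key b a hb ha hbO hcb haO hca hab.symm
    · exact hc a b ha hb hab (hca.trans hcb.symm)
    · exact ind_aux hP hW hs ha (Or.inr ⟨haO, hca⟩) (eb ▸ hab)
  · rcases hb with ⟨hb, hbO, hcb⟩ | ⟨hb, hbO, hcb⟩ | ⟨s, j, hs, eb⟩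
    · exact ind_aux hP hW ht hb (Or.inl ⟨hbO, hcb⟩) (ea ▸ hab.symm)
    · exact ind_aux hP hW ht hb (Or.inr ⟨hbO, hcb⟩) (ea ▸ hab.symm)
    · subst ea
      subst eb
      have h1 := A'_le ht
      have h2 := A'_le hs
      obtain ⟨e, h⟩ := hP.ind t s (i + 1) (j + 1) (by omega) (by omega) hab
      subst e
      rcases h with h | h
      · have : j = i + 1 := by omega
        subst this
        exact A'_not_succ ht hs
      · have : i = j + 1 := by omega
        subst this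
        exact A'_not_succ hs ht

/-- adjacent spine vertices, first on a path, second in a disc boundary -/
theorem pw_adj (hP : Paths G L p)
    (hW : ∀ t i, A G L p c t i →
      Disc G (PV L p) c (p t i) (p t (i + 1)) (p t (i + 2)) (w t i) (Ω t i))
    {t : T} {i : ℕ} (ht : A' G L p c t i) {s : T} {m : ℕ} (hm : m ≤ L s)
    (ha : G.Adj (p s m) (w t i)) : s = t ∧ (m = i ∨ m = i + 2) := by
  have D := hW t i ht.1
  have hL := A'_le ht
  obtain ⟨e, h1⟩ := hP.com s t m i (w t i) hm (by omega) ha D.adj0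
  obtain ⟨_, h2⟩ := hP.com s t m (i + 2) (w t i) hm (by omega) ha D.adj2
  exact ⟨e, by omega⟩

theorem spine_adj (hP : Paths G L p)
    (hc : ∀ u v, u ∉ PV L p → v ∉ PV L p → G.Adj u v → c u ≠ c v)
    (hW : ∀ t i, A G L p c t i →
      Disc G (PV L p) c (p t i) (p t (i + 1)) (p t (i + 2)) (w t i) (Ω t i))
    {t s : T} {j m : ℕ} (hj : j ≤ L t) (hm : m ≤ L s)
    (ha : G.Adj (sg G L p c w t j) (sg G L p c w s m)) : s = t ∧ (m = j + 1 ∨ j = m + 1) := by
  unfold sg at ha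
  split_ifs at ha with h1 h2 h2
  · exact absurd ((hW t _ h1.2.1).cw.trans (hW s _ h2.2.1).cw.symm)
      (hc _ _ (hW t _ h1.2.1).wP (hW s _ h2.2.1).wP ha)
  · obtain ⟨e, h⟩ := pw_adj hP hW h1.2 hm ha.symm
    have := h1.1
    exact ⟨e, by omega⟩
  · obtain ⟨e, h⟩ := pw_adj hP hW h2.2 hj ha
    have := h2.1
    exact ⟨e.symm, by omega⟩
  · obtain ⟨e, h⟩ := hP.ind t s j m hj hm ha
    exact ⟨e.symm, h⟩

/-- the complement of the independent set: pendant or spine -/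
theorem compl_cases
    (hW : ∀ t i, A G L p c t i →
      Disc G (PV L p) c (p t i) (p t (i + 1)) (p t (i + 2)) (w t i) (Ω t i))
    {v : V} (hv : v ∉ II G L p c Ω) :
    Pd G L p c w Ω v ∨ (∃ t i, A' G L p c t i ∧ v = w t i) ∨
      ∃ t j, j ≤ L t ∧ v = p t j ∧ ¬ (1 ≤ j ∧ A' G L p c t (j - 1)) := by
  by_cases hP : v ∈ PV L p
  · obtain ⟨t, j, hj, e⟩ := hP
    refine Or.inr (Or.inr ⟨t, j, hj, e, fun h => hv (Or.inr (Or.inr ⟨t, j - 1, h.2, ?_⟩))⟩)
    rw [e]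
    congr 1
    have := h.1
    omega
  · by_cases hw : ∃ t i, A' G L p c t i ∧ v = w t i
    · exact Or.inr (Or.inl hw)
    · refine Or.inl ⟨hP, fun t i h e => hw ⟨t, i, h, e⟩, ?_⟩
      by_cases hO : v ∈ Om G L p c Ω
      · rcases z01 (c v) with h | h
        · exact Or.inl ⟨hO, h⟩
        · exact absurd (Or.inl ⟨hP, hO, h⟩) hv
      · rcases z01 (c v) with h | h
        · exact absurd (Or.inr (Or.inl ⟨hP, hO, h⟩)) hv
        · exact Or.inr ⟨hO, h⟩

theorem pd_pd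
    (hc : ∀ u v, u ∉ PV L p → v ∉ PV L p → G.Adj u v → c u ≠ c v)
    (hW : ∀ t i, A G L p c t i →
      Disc G (PV L p) c (p t i) (p t (i + 1)) (p t (i + 2)) (w t i) (Ω t i))
    {u v : V} (hu : Pd G L p c w Ω u) (hv : Pd G L p c w Ω v) : ¬ G.Adj u v := by
  intro ha
  obtain ⟨hu1, hu2, hu3⟩ := hu
  obtain ⟨hv1, hv2, hv3⟩ := hv
  rcases hu3 with ⟨h1, h2⟩ | ⟨h1, h2⟩
  · rcases hv3 with ⟨h3, h4⟩ | ⟨h3, h4⟩
    · exact hc u v hu1 hv1 ha (h2.trans h4.symm)
    · obtain ⟨t, i, h, e⟩ := leave hW h1 ha h3 hv1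
      exact hv2 t i h e
  · rcases hv3 with ⟨h3, h4⟩ | ⟨h3, h4⟩
    · obtain ⟨t, i, h, e⟩ := leave hW h3 ha.symm h1 hu1
      exact hu2 t i h e
    · exact hc u v hu1 hv1 ha (h2.trans h4.symm)

/-- a pendant vertex outside of the discs: two neighbours at distance two on a path -/
theorem pd_aux
    (hW : ∀ t i, A G L p c t i →
      Disc G (PV L p) c (p t i) (p t (i + 1)) (p t (i + 2)) (w t i) (Ω t i))
    {v : V} (hv1 : v ∉ PV L p) (hv2 : ∀ t i, A' G L p c t i → v ≠ w t i)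
    (hv3 : v ∉ Om G L p c Ω) (hv4 : c v = 1) {t : T} {m : ℕ} (hm : m + 2 ≤ L t)
    (h1 : G.Adj v (p t m)) (h2 : G.Adj v (p t (m + 2)))
    (n1 : ¬ (1 ≤ m ∧ A' G L p c t (m - 1))) (n2 : ¬ (1 ≤ m + 2 ∧ A' G L p c t (m + 2 - 1))) :
    False := by
  have hA : A G L p c t m := ⟨hm, v, hv1, hv4, h1.symm, h2.symm⟩
  by_cases h' : A' G L p c t m
  · rcases (hW t m hA).out v hv1 hv4 h1.symm h2.symm with h | h
    · exact hv2 t m h' h
    · exact hv3 ⟨t, m, h', h⟩
  · obtain ⟨hm1, h | h⟩ := A_not_A' hA h'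
    · exact n1 ⟨hm1, h⟩
    · exact n2 ⟨by omega, by simpa using h⟩

theorem pd_unique (hP : Paths G L p)
    (hc : ∀ u v, u ∉ PV L p → v ∉ PV L p → G.Adj u v → c u ≠ c v)
    (hW : ∀ t i, A G L p c t i →
      Disc G (PV L p) c (p t i) (p t (i + 1)) (p t (i + 2)) (w t i) (Ω t i))
    {v a b : V} (hv : Pd G L p c w Ω v) (ha : a ∉ II G L p c Ω) (hb : b ∉ II G L p c Ω)
    (hva : G.Adj v a) (hvb : G.Adj v b) : a = b := by
  obtain ⟨hv1, hv2, hv3⟩ := id hv
  rcases hv3 with ⟨⟨t, i, ht, hm⟩, h2⟩ | ⟨h1, h2⟩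
  · have D := hW t i ht.1
    have key : ∀ x, x ∉ II G L p c Ω → G.Adj v x → x = w t i := by
      intro x hx hvx
      rcases D.nb v x hm hvx with h | h | h | h | h
      · exfalso
        have hxO : x ∈ Om G L p c Ω := ⟨t, i, ht, h⟩
        have hxP := D.disj x h
        have hne := hc v x hv1 hxP hvx
        rcases z01 (c x) with h0 | h0
        · exact hne (h2.trans h0.symm)
        · exact hx (Or.inl ⟨hxP, hxO, h0⟩)
      · exfalso
        have := D.end0 v hm (h ▸ hvx.symm)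
        rw [h2] at this
        exact absurd this (by decide)
      · exact absurd (Or.inr (Or.inr ⟨t, i, ht, h⟩)) hx
      · exfalso
        have := D.end2 v hm (h ▸ hvx.symm)
        rw [h2] at this
        exact absurd this (by decide)
      · exact h
    rw [key a ha hva, key b hb hvb]
  · have key : ∀ x, x ∉ II G L p c Ω → G.Adj v x →
        ∃ t j, j ≤ L t ∧ x = p t j ∧ ¬ (1 ≤ j ∧ A' G L p c t (j - 1)) := by
      intro x hx hvx
      rcases compl_cases (w := w) hW hx with h | ⟨t, i, ht, e⟩ | h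
      · exact absurd hvx (pd_pd hc hW hv h)
      · exfalso
        subst e
        exact hc v _ hv1 (hW t i ht.1).wP hvx (h2.trans (hW t i ht.1).cw.symm)
      · exact h
    obtain ⟨t, m, hm, ea, na⟩ := key a ha hva
    obtain ⟨s, n, hn, eb, nb⟩ := key b hb hvb
    subst ea
    subst eb
    obtain ⟨e, h⟩ := hP.com t s m n v hm hn hva.symm hvb.symm
    subst e
    rcases h with h | h | h
    · rw [h]
    · subst h
      exact (pd_aux hW hv1 hv2 h1 h2 hn hva hvb na nb).elim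
    · subst h
      exact (pd_aux hW hv1 hv2 h1 h2 hm hvb hva nb na).elim

theorem forest (hP : Paths G L p)
    (hc : ∀ u v, u ∉ PV L p → v ∉ PV L p → G.Adj u v → c u ≠ c v)
    (hW : ∀ t i, A G L p c t i →
      Disc G (PV L p) c (p t i) (p t (i + 1)) (p t (i + 2)) (w t i) (Ω t i)) :
    Forest G (II G L p c Ω)ᶜ := by
  classical
  intro S hS hne
  by_cases hpd : ∃ v ∈ S, Pd G L p c w Ω v
  · obtain ⟨v, hv, hpv⟩ := hpd
    exact ⟨v, hv, fun a ha b hb h1 h2 => pd_unique hP hc hW hpv (hS ha) (hS hb) h1 h2⟩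
  · have key : ∀ x ∈ S, ∃ t j, j ≤ L t ∧ x = sg G L p c w t j := by
      intro x hx
      rcases compl_cases (w := w) hW (hS hx) with h | ⟨t, i, ht, e⟩ | ⟨t, j, hj, e, hn⟩
      · exact absurd ⟨x, hx, h⟩ hpd
      · have := A'_le ht
        refine ⟨t, i + 1, by omega, ?_⟩
        rw [sg, if_pos ⟨by omega, by simpa using ht⟩, e]
        simp
      · refine ⟨t, j, hj, ?_⟩
        rw [sg, if_neg hn, e]
    obtain ⟨x, hx⟩ := hne
    obtain ⟨t, j0, hj0, e0⟩ := key x hx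
    have hex : ∃ j, j ≤ L t ∧ sg G L p c w t j ∈ S := ⟨j0, hj0, e0 ▸ hx⟩
    let j := Nat.find hex
    have hj : j ≤ L t ∧ sg G L p c w t j ∈ S := Nat.find_spec hex
    have hmin : ∀ m, m < j → ¬ (m ≤ L t ∧ sg G L p c w t m ∈ S) := fun m hm =>
      Nat.find_min hex hm
    have nxt : ∀ b ∈ S, G.Adj (sg G L p c w t j) b → b = sg G L p c w t (j + 1) := by
      intro b hb hab
      obtain ⟨s, m, hm, e⟩ := key b hb
      subst e
      obtain ⟨es, h⟩ := spine_adj hP hc hW hj.1 hm hab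
      subst es
      rcases h with h | h
      · rw [h]
      · exact absurd ⟨hm, hb⟩ (hmin m (by omega))
    exact ⟨_, hj.2, fun a ha b hb h1 h2 => (nxt a ha h1).trans (nxt b hb h2).symm⟩

end

theorem hCOMB : StComb := by
  intro V T G L p c hP hc hD
  have hex : ∀ t i, ∃ x : V × Set V, A G L p c t i →
      Disc G (PV L p) c (p t i) (p t (i + 1)) (p t (i + 2)) x.1 x.2 := by
    intro t i
    by_cases h : A G L p c t i
    · obtain ⟨hL, v, hv, hcv, h1, h2⟩ := id h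
      obtain ⟨w, Ω, D⟩ := hD t i v hL hv hcv h1 h2
      exact ⟨(w, Ω), fun _ => D⟩
    · exact ⟨(p t i, ∅), fun h' => absurd h' h⟩
  choose x hx using hex
  have hW : ∀ t i, A G L p c t i →
      Disc G (PV L p) c (p t i) (p t (i + 1)) (p t (i + 2)) ((fun t i => (x t i).1) t i)
        ((fun t i => (x t i).2) t i) := fun t i h => hx t i h
  exact ⟨II G L p c (fun t i => (x t i).2), indep hP hc hW, forest hP hc hW⟩

end Pool.Agent.Helper74.OF
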