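import Pool.Agent.Helper64.OF.St
import Pool.Agent.Helper35.PM.D_SIDE

/-!
# Project OF, module TR: the 4-cycle at a common neighbour
-/

set_option autoImplicit false

namespace Pool.Agent.Helper74.OF.TR

open Equiv Equiv.Perm Pool.Agent.Helper64.OF Pool.Agent.Helper35.PM

section

variable {D : Type} (r : Perm D) (e : D)

/-- the index of an element of the cycle of `e` -/
noncomputable def idx (d : D) : ℕ := sInf {k | 1 ≤ k ∧ (r ^ k) e = d}

variable {r e}

theorem idx_le {d : D} {k : ℕ} (h1 : 1 ≤ k) (h : (r ^ k) e = d) : idx r e d ≤ k :=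
  Nat.sInf_le ⟨h1, h⟩

variable [Finite D]

theorem idx_spec {d : D} (h : r.SameCycle e d) :
    1 ≤ idx r e d ∧ (r ^ (idx r e d)) e = d := by
  have hne : {k | 1 ≤ k ∧ (r ^ k) e = d}.Nonempty := by
    obtain ⟨i, h0, _, h1⟩ := h.exists_pow_eq''
    exact ⟨i, h0, h1⟩
  exact Nat.sInf_mem hne

theorem idx_self : idx r e (r e) = 1 :=
  le_antisymm (idx_le le_rfl (by simp)) (idx_spec ((SameCycle.refl r e).apply_right)).1

theorem idx_r {d : D} (h : r.SameCycle e d) (hne : d ≠ e) : idx r e (r d) = idx r e d + 1 := by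
  have h1 := idx_spec h
  have h2 := idx_spec h.apply_right
  apply le_antisymm
  · apply idx_le (by omega)
    rw [pow_succ', mul_apply, h1.2]
  · obtain ⟨k, hk⟩ : ∃ k, idx r e (r d) = k + 1 := ⟨idx r e (r d) - 1, by omega⟩
    rw [hk] at h2 ⊢
    have h3 : (r ^ k) e = d := by
      have := h2.2
      rw [pow_succ', mul_apply] at this
      exact r.injective this
    rcases Nat.eq_zero_or_pos k with h0 | h0
    · subst h0
      exact absurd h3.symm hne
    · have := idx_le h0 h3
      omega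

theorem idx_inj {d d' : D} (h : r.SameCycle e d) (h' : r.SameCycle e d')
    (he : idx r e d = idx r e d') : d = d' := by
  rw [← (idx_spec h).2, ← (idx_spec h').2, he]

theorem two_aux (g : D → ZMod 2) {x : D} (hx : r.SameCycle e x)
    (h1 : g (r e) = g e + 1) (h2 : g (r x) = g x + 1)
    (h3 : ∀ d, r.SameCycle e d → d ≠ e → d ≠ x → g (r d) = g d) :
    ∀ k d, r.SameCycle e d → idx r e d = k + 1 →
      (idx r e d ≤ idx r e x → g d = g e + 1) ∧ (idx r e x < idx r e d → g d = g e) := by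
  intro k
  induction k with
  | zero =>
    intro d hd hk
    have hs := idx_spec hd
    rw [hk] at hs
    have hde : r e = d := by simpa using hs.2
    refine ⟨fun _ => hde ▸ h1, fun h => ?_⟩
    have := (idx_spec hx).1
    omega
  | succ k ih =>
    intro d hd hk
    have hs := idx_spec hd
    rw [hk] at hs
    have hd' : r.SameCycle e ((r ^ (k + 1)) e) := ⟨(k + 1 : ℕ), by rw [zpow_natCast]⟩
    have hrd : r ((r ^ (k + 1)) e) = d := by
      rw [← hs.2, pow_succ' r (k + 1), mul_apply]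
    have hne : (r ^ (k + 1)) e ≠ e := by
      intro h
      rw [h] at hrd
      have : idx r e d = 1 := by rw [← hrd]; exact idx_self
      omega
    have hi : idx r e ((r ^ (k + 1)) e) = k + 1 := by
      have := idx_r hd' hne
      rw [hrd] at this
      omega
    obtain ⟨i1, i2⟩ := ih _ hd' hi
    by_cases hxx : (r ^ (k + 1)) e = x
    · rw [hxx] at hrd hi i1
      constructor
      · intro h
        omega
      · intro _
        rw [← hrd, h2, i1 le_rfl]
        generalize g e = p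
        revert p
        decide
    · have hg := h3 _ hd' hne hxx
      rw [hrd] at hg
      have hnx : idx r e x ≠ k + 1 := fun h => hxx (idx_inj hd' hx (hi.trans h.symm))
      rw [hg]
      exact ⟨fun h => i1 (by omega), fun h => i2 (by omega)⟩

/-- a function which changes exactly at `e` and `x` along the cycle of `e` -/
theorem two (g : D → ZMod 2) {x : D} (hx : r.SameCycle e x)
    (h1 : g (r e) = g e + 1) (h2 : g (r x) = g x + 1)
    (h3 : ∀ d, r.SameCycle e d → d ≠ e → d ≠ x → g (r d) = g d) {d : D}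
    (hd : r.SameCycle e d) :
    (idx r e d ≤ idx r e x → g d = g e + 1) ∧ (idx r e x < idx r e d → g d = g e) :=
  two_aux g hx h1 h2 h3 (idx r e d - 1) d hd (by have := (idx_spec hd).1; omega)

theorem const (g : D → ZMod 2) (h : ∀ d, r.SameCycle e d → g (r d) = g d) {d : D}
    (hd : r.SameCycle e d) : g d = g e := by
  obtain ⟨i, hi⟩ := hd.exists_nat_pow_eq
  subst hi
  induction i with
  | zero => rfl
  | succ n ih =>
    have hn : r.SameCycle e ((r ^ n) e) := ⟨(n : ℕ), by rw [zpow_natCast]⟩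
    rw [pow_succ', mul_apply, h _ hn]
    exact ih hn

end

section

variable {V : Type} {G : SimpleGraph V} (R : Rot G)

theorem fst_same [Finite G.Dart] {d e : G.Dart} (h : R.r.SameCycle e d) : d.fst = e.fst := by
  obtain ⟨i, hi⟩ := h.exists_nat_pow_eq
  subst hi
  clear h
  induction i with
  | zero => rfl
  | succ n ih =>
    rw [pow_succ', mul_apply, R.fst_r]
    exact ih

theorem y_r {m : ℕ} {v : ZMod m → V} {y : G.Dart → ZMod 2} (h : Side R m v y) (d : G.Dart) :
    y (R.r d) = y d.symm := by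
  have := h.face d.symm
  rw [Rot.φ_apply, SimpleGraph.Dart.symm_symm] at this
  exact this

variable {R}

theorem dart_eq {a b : V} {h : G.Adj a b} {d : G.Dart} (h1 : d.fst = a) (h2 : d.snd = b) :
    d = ⟨(a, b), h⟩ := by
  apply SimpleGraph.Dart.ext
  exact Prod.ext h1 h2

/-- off the cycle -/
theorem off4 {a b c w : V} {y : G.Dart → ZMod 2} (h : Side R 4 ![a, b, c, w] y) {d : G.Dart}
    (h1 : ¬ (d.fst = a ∧ d.snd = b)) (h2 : ¬ (d.fst = b ∧ d.snd = a))
    (h3 : ¬ (d.fst = b ∧ d.snd = c)) (h4 : ¬ (d.fst = c ∧ d.snd = b))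
    (h5 : ¬ (d.fst = c ∧ d.snd = w)) (h6 : ¬ (d.fst = w ∧ d.snd = c))
    (h7 : ¬ (d.fst = w ∧ d.snd = a)) (h8 : ¬ (d.fst = a ∧ d.snd = w)) : y (R.r d) = y d := by
  refine (h.off d fun j => ?_).2
  have key : ∀ p q : V, ¬ (d.fst = p ∧ d.snd = q) → d.toProd ≠ (p, q) := by
    intro p q hn he
    exact hn ⟨congrArg Prod.fst he, congrArg Prod.snd he⟩
  have hj : j = 0 ∨ j = 1 ∨ j = 2 ∨ j = 3 := by
    revert j
    decide
  rcases hj with rfl | rfl | rfl | rfl
  · exact ⟨key _ _ h1, key _ _ h2⟩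
  · exact ⟨key _ _ h3, key _ _ h4⟩
  · exact ⟨key _ _ h5, key _ _ h6⟩
  · exact ⟨key _ _ h7, key _ _ h8⟩

end

theorem c4 (j : ZMod 4) : j = 0 ∨ j = 1 ∨ j = 2 ∨ j = 3 := by
  revert j
  decide

theorem a1 {x : ZMod 2} (h : x = 1 + 1) : x = 0 := by
  rw [h]
  decide

theorem hTR : StTR := by
  intro V _ G R q K u0 u1 u2 h01 h12 z0 z2 h02 hz0 hz2 q0 q1 q2 qa qb qc qd hK1 hK hq0 hq2 hKne
  have hfin : Finite G.Dart := Finite.of_injective (fun d : G.Dart => d.toProd)
    (fun d d' h => SimpleGraph.Dart.ext d d' h)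
  -- the darts
  let e0 : G.Dart := ⟨(u0, u1), h01⟩
  let e1 : G.Dart := ⟨(u1, u0), h01.symm⟩
  let x1 : G.Dart := ⟨(u1, u2), h12⟩
  let e2 : G.Dart := ⟨(u2, u1), h12.symm⟩
  have s0 : ∀ d : G.Dart, d.fst = u0 → R.r.SameCycle e0 d := fun d h => R.trans _ _ h.symm
  have s1 : ∀ d : G.Dart, d.fst = u1 → R.r.SameCycle e1 d := fun d h => R.trans _ _ h.symm
  have s2 : ∀ d : G.Dart, d.fst = u2 → R.r.SameCycle e2 d := fun d h => R.trans _ _ h.symm
  have t0 : ∀ d : G.Dart, R.r.SameCycle e0 d → d.fst = u0 := fun d h => fst_same R h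
  have t1 : ∀ d : G.Dart, R.r.SameCycle e1 d → d.fst = u1 := fun d h => fst_same R h
  have t2 : ∀ d : G.Dart, R.r.SameCycle e2 d → d.fst = u2 := fun d h => fst_same R h
  -- the choice of w
  obtain ⟨x0, ⟨hx0, hx0K⟩, hmax⟩ : ∃ x ∈ {d : G.Dart | d.fst = u0 ∧ d.snd ∈ K},
      ∀ d ∈ {d : G.Dart | d.fst = u0 ∧ d.snd ∈ K}, idx R.r e0 d ≤ idx R.r e0 x := by
    apply Set.exists_max_image _ _ (Set.toFinite _)
    obtain ⟨v, hv⟩ := hKne
    exact ⟨⟨(u0, v), (hK v hv).1⟩, rfl, hv⟩
  obtain ⟨w, hw⟩ : ∃ w, x0.snd = w := ⟨_, rfl⟩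
  have hwK : w ∈ K := hw ▸ hx0K
  have hw0 : G.Adj u0 w := (hK w hwK).1
  have hw2 : G.Adj u2 w := (hK w hwK).2
  have n01 : u0 ≠ u1 := h01.ne
  have n12 : u1 ≠ u2 := h12.ne
  have n0w : u0 ≠ w := hw0.ne
  have n2w : u2 ≠ w := hw2.ne
  have n1w : u1 ≠ w := fun h => hK1 (h ▸ hwK)
  have hcyc : Cyc G 4 ![u0, u1, u2, w] := by
    constructor
    · intro i j hij
      have hi := c4 i
      have hj := c4 j
      rcases hi with rfl | rfl | rfl | rfl <;> rcases hj with rfl | rfl | rfl | rfl
      · rfl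
      · exact absurd hij n01
      · exact absurd hij h02
      · exact absurd hij n0w
      · exact absurd hij n01.symm
      · rfl
      · exact absurd hij n12
      · exact absurd hij n1w
      · exact absurd hij h02.symm
      · exact absurd hij n12.symm
      · rfl
      · exact absurd hij n2w
      · exact absurd hij n0w.symm
      · exact absurd hij n1w.symm
      · exact absurd hij n2w.symm
      · rfl
    · intro j
      have hj : j = 0 ∨ j = 1 ∨ j = 2 ∨ j = 3 := by
        revert j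
        decide
      rcases hj with rfl | rfl | rfl | rfl
      · exact h01
      · exact h12
      · exact hw2
      · exact hw0.symm
  obtain ⟨y, hy⟩ := D_SIDE.main V G R 4 ![u0, u1, u2, w] (by norm_num) hcyc
  -- values on the cycle
  have y01 : ∀ d : G.Dart, d.fst = u0 → d.snd = u1 → y d = 0 := fun d h h' =>
    hy.on0 d 0 (Prod.ext h h')
  have y10 : ∀ d : G.Dart, d.fst = u1 → d.snd = u0 → y d = 1 := fun d h h' =>
    hy.on1 d 0 (Prod.ext h h')
  have y12 : ∀ d : G.Dart, d.fst = u1 → d.snd = u2 → y d = 0 := fun d h h' =>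
    hy.on0 d 1 (Prod.ext h h')
  have y21 : ∀ d : G.Dart, d.fst = u2 → d.snd = u1 → y d = 1 := fun d h h' =>
    hy.on1 d 1 (Prod.ext h h')
  have y2w : ∀ d : G.Dart, d.fst = u2 → d.snd = w → y d = 0 := fun d h h' =>
    hy.on0 d 2 (Prod.ext h h')
  have yw2 : ∀ d : G.Dart, d.fst = w → d.snd = u2 → y d = 1 := fun d h h' =>
    hy.on1 d 2 (Prod.ext h h')
  have yw0 : ∀ d : G.Dart, d.fst = w → d.snd = u0 → y d = 0 := fun d h h' =>
    hy.on0 d 3 (Prod.ext h h')
  have y0w : ∀ d : G.Dart, d.fst = u0 → d.snd = w → y d = 1 := fun d h h' =>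
    hy.on1 d 3 (Prod.ext h h')
  have yr := y_r R hy
  -- at u0
  have a01 : y (R.r e0) = y e0 + 1 := by
    rw [yr, y01 e0 rfl rfl, y10 e0.symm rfl rfl, zero_add]
  have a02 : y (R.r x0) = y x0 + 1 := by
    rw [yr, y0w x0 hx0 hw, yw0 x0.symm hw hx0]
    decide
  have a03 : ∀ d, R.r.SameCycle e0 d → d ≠ e0 → d ≠ x0 → y (R.r d) = y d := by
    intro d hd hn1 hn2
    have hf := t0 d hd
    have hs1 : d.snd ≠ u1 := fun h => hn1 (dart_eq hf h)
    have hs2 : d.snd ≠ w := fun h => hn2 (SimpleGraph.Dart.ext _ _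
      (Prod.ext (hf.trans hx0.symm) (h.trans hw.symm)))
    apply off4 hy
    · exact fun h => hs1 h.2
    · exact fun h => n01 (hf.symm.trans h.1)
    · exact fun h => n01 (hf.symm.trans h.1)
    · exact fun h => h02 (hf.symm.trans h.1)
    · exact fun h => h02 (hf.symm.trans h.1)
    · exact fun h => n0w (hf.symm.trans h.1)
    · exact fun h => n0w (hf.symm.trans h.1)
    · exact fun h => hs2 h.2
  have Y0 : ∀ d : G.Dart, d.fst = u0 → (idx R.r e0 d ≤ idx R.r e0 x0 → y d = 1) ∧
      (idx R.r e0 x0 < idx R.r e0 d → y d = 0) := by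
    intro d hd
    have h := two y (s0 x0 hx0) a01 a02 a03 (s0 d hd)
    rw [y01 e0 rfl rfl, zero_add] at h
    exact h
  -- q at u0
  have hzne : z0 ≠ e0 := by
    intro hze
    have hcst : ∀ d, R.r.SameCycle e0 d → q (R.r d) = q d := by
      intro d hd
      rw [q0 d (t0 d hd)]
      by_cases h : d = e0
      · rw [if_pos (by rw [h]), if_pos (by rw [h, hze])]
        generalize q d = p
        revert p
        decide
      · rw [if_neg (fun h' => h (dart_eq (t0 d hd) h')), if_neg (fun h' => h (h'.trans hze)),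
          add_zero, add_zero]
    have h1 := const q hcst (s0 x0 hx0)
    rw [hq0 x0 hx0 hx0K] at h1
    have h2 : q e0 = 1 := qa
    rw [h2] at h1
    exact absurd h1 (by decide)
  have Q0 : ∀ d : G.Dart, d.fst = u0 → (idx R.r e0 d ≤ idx R.r e0 z0 → q d = 0) ∧
      (idx R.r e0 z0 < idx R.r e0 d → q d = 1) := by
    intro d hd
    have h := two q (s0 z0 hz0) (e := e0) (by
      rw [q0 e0 rfl, if_pos rfl, if_neg (fun h => hzne h.symm), add_zero]) (by
      rw [q0 z0 hz0, if_neg (fun h' => hzne (dart_eq hz0 h')), if_pos rfl, add_zero]) (by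
      intro d hd hn1 hn2
      rw [q0 d (t0 d hd), if_neg (fun h' => hn1 (dart_eq (t0 d hd) h')), if_neg hn2, add_zero,
        add_zero]) (s0 d hd)
    have h2 : q e0 = 1 := qa
    rw [h2] at h
    exact ⟨fun h' => a1 (h.1 h'), h.2⟩
  have hxz : idx R.r e0 x0 ≤ idx R.r e0 z0 := by
    by_contra hcon
    have h1 := (Q0 x0 hx0).2 (by omega)
    rw [hq0 x0 hx0 hx0K] at h1
    exact absurd h1 (by decide)
  -- at u1
  have Y1 : ∀ d : G.Dart, d.fst = u1 → y d = q d := by
    intro d hd
    have h1 := two y (e := e1) (x := x1) (s1 x1 rfl) (by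
      rw [yr, y10 e1 rfl rfl, y01 e1.symm rfl rfl]
      decide) (by
      rw [yr, y12 x1 rfl rfl, y21 x1.symm rfl rfl, zero_add]) (by
      intro d hd hn1 hn2
      have hf := t1 d hd
      have hs1 : d.snd ≠ u0 := fun h => hn1 (dart_eq hf h)
      have hs2 : d.snd ≠ u2 := fun h => hn2 (dart_eq hf h)
      apply off4 hy
      · exact fun h => n01.symm (hf.symm.trans h.1)
      · exact fun h => hs1 h.2
      · exact fun h => hs2 h.2
      · exact fun h => n12 (hf.symm.trans h.1)
      · exact fun h => n12 (hf.symm.trans h.1)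
      · exact fun h => n1w (hf.symm.trans h.1)
      · exact fun h => n1w (hf.symm.trans h.1)
      · exact fun h => n01.symm (hf.symm.trans h.1)) (s1 d hd)
    have h2 := two q (e := e1) (x := x1) (s1 x1 rfl) (by
      rw [q1 e1 rfl, if_pos rfl, if_neg (fun h => h02 h), add_zero]) (by
      rw [q1 x1 rfl, if_neg (fun h => h02.symm h), if_pos rfl, add_zero]) (by
      intro d hd hn1 hn2
      have hf := t1 d hd
      rw [q1 d hf, if_neg (fun h => hn1 (dart_eq hf h)), if_neg (fun h => hn2 (dart_eq hf h)),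
        add_zero, add_zero]) (s1 d hd)
    rw [y10 e1 rfl rfl] at h1
    have h3 : q e1 = 1 := qb
    rw [h3] at h2
    rcases le_or_gt (idx R.r e1 d) (idx R.r e1 x1) with h | h
    · rw [h1.1 h, h2.1 h]
    · rw [h1.2 h, h2.2 h]
  -- at u2
  let x2 : G.Dart := ⟨(u2, w), hw2⟩
  have qx2 : q x2 = 0 := hq2 x2 rfl hwK
  have Y2 : ∀ d : G.Dart, d.fst = u2 → (idx R.r e2 d ≤ idx R.r e2 x2 → y d = 0) ∧
      (idx R.r e2 x2 < idx R.r e2 d → y d = 1) := by
    intro d hd
    have h := two y (e := e2) (x := x2) (s2 x2 rfl) (by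
      rw [yr, y21 e2 rfl rfl, y12 e2.symm rfl rfl]
      decide) (by
      rw [yr, y2w x2 rfl rfl, yw2 x2.symm rfl rfl, zero_add]) (by
      intro d hd hn1 hn2
      have hf := t2 d hd
      have hs1 : d.snd ≠ u1 := fun h => hn1 (dart_eq hf h)
      have hs2 : d.snd ≠ w := fun h => hn2 (dart_eq hf h)
      apply off4 hy
      · exact fun h => h02.symm (hf.symm.trans h.1)
      · exact fun h => n12.symm (hf.symm.trans h.1)
      · exact fun h => n12.symm (hf.symm.trans h.1)
      · exact fun h => hs1 h.2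
      · exact fun h => hs2 h.2
      · exact fun h => n2w (hf.symm.trans h.1)
      · exact fun h => n2w (hf.symm.trans h.1)
      · exact fun h => h02.symm (hf.symm.trans h.1)) (s2 d hd)
    rw [y21 e2 rfl rfl] at h
    exact ⟨fun h' => a1 (h.1 h'), h.2⟩
  have hx2pos : 1 ≤ idx R.r e2 x2 := (idx_spec (s2 x2 rfl)).1
  have fin2 : y (R.r z2) = 0 ∧ (z2.snd ≠ u1 → y z2 = 0) ∧
      (∀ d : G.Dart, d.fst = u2 → y d = 1 → q d = 0) := by
    have qe2 : q e2 = 0 := qd
    by_cases hze : z2 = e2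
    · have hcst : ∀ d, R.r.SameCycle e2 d → q (R.r d) = q d := by
        intro d hd
        rw [q2 d (t2 d hd)]
        by_cases h : d = e2
        · rw [if_pos (by rw [h]), if_pos (by rw [h, hze])]
          generalize q d = p
          revert p
          decide
        · rw [if_neg (fun h' => h (dart_eq (t2 d hd) h')), if_neg (fun h' => h (h'.trans hze)),
            add_zero, add_zero]
      refine ⟨?_, fun h => absurd (by rw [hze]) h, fun d hd _ => ?_⟩
      · apply (Y2 _ (by rw [R.fst_r, hz2])).1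
        rw [hze, idx_self]
        exact hx2pos
      · rw [const q hcst (s2 d hd), qe2]
    · have Q2 : ∀ d : G.Dart, d.fst = u2 → (idx R.r e2 d ≤ idx R.r e2 z2 → q d = 1) ∧
          (idx R.r e2 z2 < idx R.r e2 d → q d = 0) := by
        intro d hd
        have h := two q (s2 z2 hz2) (e := e2) (by
          rw [q2 e2 rfl, if_pos rfl, if_neg (fun h => hze h.symm), add_zero]) (by
          rw [q2 z2 hz2, if_neg (fun h' => hze (dart_eq hz2 h')), if_pos rfl, add_zero]) (by
          intro d hd hn1 hn2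
          rw [q2 d (t2 d hd), if_neg (fun h' => hn1 (dart_eq (t2 d hd) h')), if_neg hn2,
            add_zero, add_zero]) (s2 d hd)
        rw [qe2, zero_add] at h
        exact h
      have hlt : idx R.r e2 z2 < idx R.r e2 x2 := by
        by_contra hcon
        have h1 := (Q2 x2 rfl).1 (by omega)
        rw [qx2] at h1
        exact absurd h1 (by decide)
      refine ⟨?_, fun _ => (Y2 z2 hz2).1 hlt.le, fun d hd h1 => ?_⟩
      · apply (Y2 _ (by rw [R.fst_r, hz2])).1
        rw [idx_r (s2 z2 hz2) hze]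
        omega
      · apply (Q2 d hd).2
        by_contra hcon
        have h2 := (Y2 d hd).1 (by omega)
        rw [h1] at h2
        exact absurd h2 (by decide)
  refine ⟨w, hwK, y, hcyc, hy, ?_, ?_, ?_, fin2.1, fin2.2.1, ?_, Y1, fin2.2.2⟩
  · intro d hd hdK
    exact (Y0 d hd).1 (hmax d ⟨hd, hdK⟩)
  · apply (Y0 _ (by rw [R.fst_r, hz0])).2
    rw [idx_r (s0 z0 hz0) hzne]
    omega
  · intro hzK
    apply (Y0 z0 hz0).2
    refine lt_of_le_of_ne hxz fun h => hzK ?_
    rw [← idx_inj (s0 x0 hx0) (s0 z0 hz0) h]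
    exact hx0K
  · intro d hd h1
    apply (Q0 d hd).1
    by_contra hcon
    have h2 := (Y0 d hd).2 (by omega)
    rw [h1] at h2
    exact absurd h2 (by decide)

end Pool.Agent.Helper74.OF.TR
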